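import Pool.Agent.H360R2.RG.Stubs

/-! # r-gaps, task PARC: continuity in the parameters

Adapted from `LG.LocAux.choose_params` (`Pool/Agent/H403R2/LGLocalB.lean`). -/

open Complex Filter Topology Set MeasureTheory

namespace RGap

open SG (hh nn dd dl ord NZ)
open SP (RHs ZZ mu wt Mk Par Eb PS chi qq tt)
open LG (gK gh Zs bk lk fam prs nA yp ae EE Cn QT tm sm sm0 IsQ SF SM)

namespace ParcAux

theorem param_cont (P : Par) (m : ℕ) :
    Continuous (fun x : ℝ × ℝ => ∫ u in (0 : ℝ)..1, P.b m u * Real.sin (Real.pi * x.1 * u) *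
      Real.exp (-(u * x.2) ^ 2 / 2)) := by
  have hb : Continuous (P.b m) := (P.hb m).continuous
  apply intervalIntegral.continuous_parametric_intervalIntegral_of_continuous'
  unfold Function.uncurry
  fun_prop

theorem sm_eq (P : Par) (A c : ℝ) (m : ℕ) : sm P A c m =
    ∫ u in (0 : ℝ)..1, P.b m u * Real.sin (Real.pi * (c, 1 / A).1 * u) *
      Real.exp (-(u * (c, 1 / A).2) ^ 2 / 2) := by
  unfold sm
  simp only [mul_one_div]

theorem sm0_eq (P : Par) (c : ℝ) (m : ℕ) : sm0 P c m =
    ∫ u in (0 : ℝ)..1, P.b m u * Real.sin (Real.pi * (c, (0 : ℝ)).1 * u) *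
      Real.exp (-(u * (c, (0 : ℝ)).2) ^ 2 / 2) := by
  unfold sm0
  simp

end ParcAux

open ParcAux in
theorem PARC_proof : PARC := by
  intro P B0 r F q s c x η0 hη0 hstrict
  set Ψ : ℝ × ℝ → ℝ := fun y => 4 * r / Real.pi * ∑ m ∈ Finset.Icc 2 B0, s m *
    ((∫ u in (0 : ℝ)..1, P.b m u * Real.sin (Real.pi * y.1 * u) *
      Real.exp (-(u * y.2) ^ 2 / 2)) * SM B0 F q m) - x * SF B0 F q with hΨ
  have hc : Continuous Ψ := by
    rw [hΨ]
    apply Continuous.sub
    · apply Continuous.mul continuous_const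
      apply continuous_finsetSum
      intro m _
      exact continuous_const.mul ((param_cont P m).mul continuous_const)
    · exact continuous_const
  have h0 : 0 < Ψ (c, 0) := by
    have : Ψ (c, 0) = LM P B0 r F q s c - x * SF B0 F q := by
      simp only [hΨ, LM, sm0_eq]
    rw [this]
    linarith
  set D := Ψ (c, 0) with hD
  have hev : ∀ᶠ y in 𝓝 ((c, 0) : ℝ × ℝ), D / 2 < Ψ y :=
    hc.continuousAt.eventually (lt_mem_nhds (by linarith))
  rw [Metric.eventually_nhds_iff] at hev
  obtain ⟨ρ, hρ, hev⟩ := hev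
  set S := |SF B0 F q| + 1 with hS
  have hS1 : 1 ≤ S := by
    have := abs_nonneg (SF B0 F q)
    linarith
  have hS0 : 0 < S := by linarith
  have hη1 : 0 < D / (8 * S) := by positivity
  refine ⟨min η0 (min (ρ / 4) (D / (8 * S))), D / 12, 4 / ρ, ?_, min_le_left _ _, by positivity,
    by positivity, fun A c' hA hc' => ?_⟩
  · exact lt_min hη0 (lt_min (by positivity) hη1)
  set η := min η0 (min (ρ / 4) (D / (8 * S))) with hη
  have hηρ : η ≤ ρ / 4 := le_trans (min_le_right _ _) (min_le_left _ _)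
  have hηD : η ≤ D / (8 * S) := le_trans (min_le_right _ _) (min_le_right _ _)
  have hηpos : 0 < η := lt_min hη0 (lt_min (by positivity) hη1)
  have hA0 : 0 < A := lt_of_lt_of_le (by positivity) hA
  have h1 : dist ((c', 1 / A) : ℝ × ℝ) (c, 0) < ρ := by
    rw [Prod.dist_eq, Real.dist_eq, Real.dist_eq]
    simp only
    apply max_lt
    · linarith
    · rw [sub_zero, abs_of_pos (by positivity)]
      rw [div_le_iff₀ hρ] at hA
      rw [div_lt_iff₀ hA0]
      linarith
  have h2 := hev h1
  have h3 : Ψ (c', 1 / A) = 4 * r / Real.pi * ∑ m ∈ Finset.Icc 2 B0,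
      s m * (sm P A c' m * SM B0 F q m) - x * SF B0 F q := by
    simp only [hΨ, sm_eq]
  rw [h3] at h2
  have h4 : 2 * η * SF B0 F q ≤ D / 4 := by
    have h5 : SF B0 F q ≤ S := by
      have := le_abs_self (SF B0 F q)
      linarith
    have h6 : 2 * η * SF B0 F q ≤ 2 * η * S := by
      apply mul_le_mul_of_nonneg_left h5
      linarith
    have h7 : η * (8 * S) ≤ D := (le_div_iff₀ (by positivity)).1 hηD
    linarith
  linarith

end RGap
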